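import Mathlib
import Pool.Agent.Y786.FS.Modular

/-!
# Hasse-Weil L-functions over the subfields of `S_m`-extensions with free groups

`Pool.Agent.Y786.FS.TwistData Γ s₀` is a family of functions with the formal properties, near the
point `s₀`, of the L-functions attached to an elliptic curve `E` over a number field `K₀` (for
instance `K₀ = ℚ`) and a Galois extension `F/K₀` with group `Γ`: functions `L ψ` (for `L(E/K₀, ψ, s)`)
for the irreducible characters `ψ` of `Γ` and `Lin H l` (for `L(E/F^H, l, s)`) for the linear
characters `l` of the subgroups `H` of `Γ`, such that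

* `mero`: `L ψ` is meromorphic and not identically zero near `s₀`;
* `holo`: `Lin H l` has no pole at `s₀` for the SOLVABLE subgroups `H`;
* `induce`: `Lin H l` is the product of the `L ψ ^ ⟨ψ|_H, l⟩` near `s₀`.

So `Lin H 1` stands for the Hasse-Weil L-function `L(E/F^H, s)`.

`Pool.Agent.Y786.FR.FreeSub H` says that the subgroup `H` of the symmetric group on `m` points acts
freely: no element other than the identity fixes a point. `Pool.Agent.H541R3.ART.ind ι χ` is the
class function of `Γ` induced from the class function `χ` of `G` along `ι : G → Γ`.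
-/

set_option autoImplicit false

open Pool.Agent.H302R2 Pool.Agent.H541R3.ART Pool.Agent.Y786.FS Pool.Agent.Y786.FR Filter Topology

/-- For all `N` and `ε > 0` there is `m₀ ≥ 1` such that every group of order at most `N` is
isomorphic to a subgroup of `S_{m₀}` acting freely and the following holds for all multiples `m ≥ 1`
of `m₀` and all finite groups `Γ` containing the symmetric group `S_m` (through `j`). Consider the
subgroups `H` of `S_m` of order at most `N` acting freely on the `m` points, and the fields `F^H`.

1. Some positive multiple `k` of the character of `Γ` induced from the trivial character of `H` is a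
sum of characters induced from linear characters `λ_i` of SOLVABLE subgroups `U_i` of `Γ`, so that
`L(E/F^H, s) ^ k = ∏ L(E/F^{U_i}, λ_i, s)` (and the functional equation of the left side follows
from those on the right).

Now let `L(E/F^U, λ, s)` have no pole at `s₀` for the solvable subgroups `U` of `Γ`. Let `o H` be the
order of `L(E/F^H, s)` at `s₀`.

2. `0 ≤ o H`: also `L(E/F^H, s)` has no pole at `s₀`; and it vanishes at `s₀` if `L(E/F, s)` does.

3. If `|H| < |H'|` (with `H` contained in `H'` or not) then `o H' ≤ o H`: the quotient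
`L(E/F^H, s) / L(E/F^{H'}, s)` has no pole at `s₀`. The ratio of `o H - o H'` and
`1 / |H| - 1 / |H'|` (a multiple of the difference of the degrees of the fields) is the same for all
such pairs up to the factor `1 + ε`. -/
theorem Pool.Agent.Results.MP_bf9450_nt.FreeSubfieldsModular.result (N : ℕ) (ε : ℝ) (hε : 0 < ε) :
    ∃ m₀ : ℕ, 0 < m₀ ∧
      (∀ (G : Type) [Group G] [Finite G], Nat.card G ≤ N →
        ∃ ι : G →* Equiv.Perm (Fin m₀), Function.Injective ι ∧ FreeSub ι.range) ∧
      ∀ m : ℕ, 0 < m → m₀ ∣ m → ∀ (Γ : Type) [Group Γ] [Finite Γ] (j : Equiv.Perm (Fin m) →* Γ),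
        Function.Injective j →
        (∀ H : Subgroup (Equiv.Perm (Fin m)), FreeSub H → Nat.card H ≤ N →
          ∃ (k l : ℕ) (U : Fin l → Subgroup Γ) (lam : ∀ i, U i →* ℂˣ), 0 < k ∧
            (∀ i, Group.IsSolvable (U i)) ∧
            (∀ σ, (k : ℂ) * ind (j.comp H.subtype) (fun _ => 1) σ =
              ∑ i, ind (U i).subtype (fun h => ((lam i h : ℂˣ) : ℂ)) σ) ∧
            ∀ (s₀ : ℂ) (A : TwistData Γ s₀), (fun s => A.Lin (H.map j) 1 s ^ k) =ᶠ[𝓝[≠] s₀]
              fun s => ∏ i, A.Lin (U i) (lam i) s) ∧
        ∀ (s₀ : ℂ) (A : TwistData Γ s₀), ∃ o : Subgroup (Equiv.Perm (Fin m)) → ℤ,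
          (∀ H, meromorphicOrderAt (A.Lin (H.map j) 1) s₀ = o H) ∧
          (∀ H, FreeSub H → Nat.card H ≤ N → 0 ≤ o H ∧ (0 < o ⊥ → 0 < o H)) ∧
          ∀ H H', FreeSub H → FreeSub H' → Nat.card H < Nat.card H' → Nat.card H' ≤ N →
            o H' ≤ o H ∧
            ∀ U U', FreeSub U → FreeSub U' → Nat.card U < Nat.card U' → Nat.card U' ≤ N →
              ((o H : ℝ) - o H') * (1 / (Nat.card U : ℝ) - 1 / (Nat.card U' : ℝ)) ≤
                (1 + ε) *
                  (((o U : ℝ) - o U') * (1 / (Nat.card H : ℝ) - 1 / (Nat.card H' : ℝ))) :=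
  modular_main N ε hε
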