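import Mathlib
import Pool.Agent.Y788.SLS.Def

/-!
# Hasse-Weil L-functions over the subfields of extensions whose group contains `SL_n(F)`, `F` a
finite field of characteristic two

`Pool.Agent.Y786.FS.TwistData Γ s₀` is a family of functions with the formal properties, near the
point `s₀`, of the L-functions attached to an elliptic curve `E` over a number field `K₀` (for
instance `K₀ = ℚ`) and a Galois extension `E'/K₀` with group `Γ`: functions `L ψ` (for
`L(E/K₀, ψ, s)`) for the irreducible characters `ψ` of `Γ` and `Lin U l` (for `L(E/E'^U, l, s)`) for
the linear characters `l` of the subgroups `U` of `Γ`, such that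

* `mero`: `L ψ` is meromorphic and not identically zero near `s₀`;
* `holo`: `Lin U l` has no pole at `s₀` for the SOLVABLE subgroups `U`;
* `induce`: `Lin U l` is the product of the `L ψ ^ ⟨ψ|_U, l⟩` near `s₀`.

So `Lin U 1` stands for the Hasse-Weil L-function `L(E/E'^U, s)`.

`Pool.Agent.Y786.FS.InducedT ι A M` says that near `s₀` the function `M χ` is the product of the
`L ψ ^ ⟨ψ ∘ ι, χ⟩` for every irreducible character `χ` of `H` (`ι : H → Γ`): by the induction
property `M χ` is `L(E/K, χ, s)`, where `K` is the fixed field of `ι(H)`.

`Pool.Agent.Y788.SLS.Reduces ι χ` says that a positive multiple of the character of `Γ` induced from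
`χ` is a sum of characters induced from linear characters `l i` of SOLVABLE subgroups `U i` of `Γ`,
and that correspondingly a power of `M χ` is the product of the `Lin (U i) (l i)` and `M χ` has no
pole at `s₀`, for all data `A` as above.

`Pool.Agent.Y788.SLS.Split H` says that the subgroup `H` of `SL_n(F)` is split: for every `g` in
`H` all eigenvalues of `g` lie in `F` (`g ^ (2 ^ a (q - 1)) = 1` for some `a`, where `F` has `q`
elements). `SplitSub H` says that in addition `H` contains no scalar matrix other than the identity.

`HasEmb N B` is part 1 below. `ReducesAll j H` is `Reduces` for all irreducible characters of `H`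
together with `Lin (j H) 1 = M 1`. `RegularAll j` is part 3 below; it uses the property
`Regular SplitSub o N ε` of the orders `o H`.
-/

set_option autoImplicit false

open Matrix Pool.Agent.H302R2 Pool.Agent.H541R3.ART Pool.Agent.Y786.FS Pool.Agent.Y786.FR
  Pool.Agent.Y788.SL Pool.Agent.Y788.SLS Filter Topology

/-- 1. For all `N` and `B` there are `n ≥ 1` and a finite field `F` of characteristic two with
`q ≥ B n` elements such that every group of order at most `N` is isomorphic to a split subgroup
without scalars of `SL_n(F)`.

Let now `F` be any finite field of characteristic two with `q` elements, `n ≥ 1`, and let `Γ` be any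
finite group containing `SL_n(F)` (through `j`), for instance the Galois group of `E'/K₀`.

2. Let `H` be a split subgroup of `SL_n(F)` (it may contain scalars) with `q ≥ 42 n |H|`, or any
split subgroup if `n = 2`, and let `K` be the fixed field of `H`. For every irreducible character
`χ` of `H` some positive multiple `k` of the character of `Γ` induced from `χ` is a sum of characters
induced from linear characters `l i` of SOLVABLE subgroups `U i`; so the `k`-th power of
`L(E/K, χ, s)` is the product of the `L(E/E'^(U i), l i, s)`, and if the L-functions
`L(E/E'^U, l, s)` for solvable `U` have no pole at `s₀`, nor has `L(E/K, χ, s)`. For `χ = 1` this is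
the Hasse-Weil L-function `L(E/K, s)`.

3. Let the L-functions `L(E/E'^U, l, s)` with `U` solvable have no pole at `s₀` and let `o H` be the
order of `L(E/E'^H, s)` at `s₀`. Let `0 < ε ≤ 1` and `84 n (N + 1) ^ 2 ≤ ε q`. For the split
subgroups `H` without scalars of order at most `N`: `0 ≤ o H`, and `L(E/E'^H, s)` vanishes at `s₀` if
`L(E/E', s)` does. If `|H| < |H'|` (with `H` contained in `H'` or not) then `o H' ≤ o H`, so that
`L(E/E'^H, s) / L(E/E'^H', s)` has no pole at `s₀`, and the ratio of `o H - o H'` and
`1 / |H| - 1 / |H'|` (a multiple of the difference of the degrees of the two fields) is the same for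
all such pairs up to the factor `1 + ε`. -/
theorem Pool.Agent.Results.MP_bf9450_nt.LinearSubfieldsModular.result :
    (∀ (N : ℕ) (B : ℝ), HasEmb N B) ∧
    ∀ (F : Type) [Field F] [Finite F] [CharP F 2] (n : ℕ), 0 < n →
      ∀ (Γ : Type) [Group Γ] [Finite Γ] (j : SpecialLinearGroup (Fin n) F →* Γ),
      Function.Injective j →
      (∀ H : Subgroup (SpecialLinearGroup (Fin n) F), Split H →
        (n = 2 ∨ 42 * n * Nat.card H ≤ Nat.card F) → ReducesAll j H) ∧ RegularAll j := by
  refine ⟨exists_emb, ?_⟩
  intro F _ _ _ n hn Γ _ _ j hj
  refine ⟨?_, fun s₀ A => quot_main F n hn Γ j hj s₀ A⟩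
  intro H hH hq
  have hS : Finite (SpecialLinearGroup (Fin n) F) := Subtype.finite
  refine ⟨fun χ hχ => ?_, fun s₀ A M hM => induced_one j hj H hM⟩
  obtain ⟨k, m, U, l, hk, hsol, hid, -, hT⟩ := Pool.Agent.Y788.SLS.smain F n Γ j H H.subtype
    H.subtype_injective (fun g => by
      obtain ⟨a, ha⟩ := hH g g.2
      exact ⟨a, Subtype.ext ha⟩) hq χ hχ
  exact ⟨k, m, U, l, hk, hsol, hid, hT⟩
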