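import Pool.Agent.Y693.RF.ThmQ

/-!
# All rational elliptic curves over random number fields

Let `F` be a number field of degree `d` (for example `F = ℚ`) and `f` a monic polynomial of degree `n`
over `𝓞_F`.  For an integer `t` let `K = F(θ)` be the extension of degree `n` of `F` generated by a root
`θ` of `f + t` (for a given `f` it exists for all but `O(X^{1/2} log X)` of the integers `|t| ≤ X`, by
Hilbert's irreducibility theorem; if `F = ℚ`, the Galois group of its Galois closure is the symmetric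
group `S_n` for most `f` and `t`).  Simultaneously for all rational elliptic curves
`E : y² = x³ + a x + b` with `|a|, |b| ≤ X^c` we study the quotient `L(E/K, s) / L(E/F, s)`; for `F = ℚ`
this is `L(E/K, s) / L(E/ℚ, s)`, where `L(E/ℚ, s)` is entire by modularity, and it is the `L`-function
of the twist of `E` by a representation of dimension `n - 1` of the Galois group of `K`.  The centre of
the critical strip is `s = 1`, the Euler products converge for `Re s > 3/2`.  If the quotient is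
entire and satisfies the Riemann hypothesis, then its partial Euler products over the primes of norm at
most `y` and `x` are close to each other for all `x ≥ y` from a power of `log X` on, in every half-plane
`Re s ≥ 1 + δ`.  The theorem proves this up to a power of `X`, for all `t` outside a set of at most
`X^{1-c}` exceptions and all `E` at once.
-/

set_option autoImplicit false

namespace Pool.Agent.Results.MP_bf9450_nt.RationalCurvesRandomFields

open NumberField IsDedekindDomain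

/-- `a_v = Nv - #{(x, y) : y² = x³ + a x + b}`, where `x`, `y` are in the residue field of `v`. -/
noncomputable def trace {K : Type} [Field K] [NumberField K] (a b : 𝓞 K)
    (v : HeightOneSpectrum (𝓞 K)) : ℂ :=
  (Ideal.absNorm v.asIdeal : ℂ) - Nat.card {P : (𝓞 K ⧸ v.asIdeal) × (𝓞 K ⧸ v.asIdeal) //
    P.2 ^ 2 = P.1 ^ 3 + Ideal.Quotient.mk v.asIdeal a * P.1 + Ideal.Quotient.mk v.asIdeal b}

/-- The prime `v` does not divide `6 (4 a³ + 27 b²)`; then `y² = x³ + a x + b` has good reduction. -/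
def IsGood {K : Type} [Field K] [NumberField K] (a b : 𝓞 K) (v : HeightOneSpectrum (𝓞 K)) : Prop :=
  6 * (4 * a ^ 3 + 27 * b ^ 2) ∉ v.asIdeal

/-- The Euler factor `(1 - a_v Nv^{-s} + Nv^{1-2s})⁻¹` of `L(E/K, s)` at `v`, for
`E : y² = x³ + a x + b`. -/
noncomputable def factor {K : Type} [Field K] [NumberField K] (a b : 𝓞 K) (s : ℂ)
    (v : HeightOneSpectrum (𝓞 K)) : ℂ :=
  (1 - trace a b v * (Ideal.absNorm v.asIdeal : ℂ) ^ (-s) +
    (Ideal.absNorm v.asIdeal : ℂ) ^ (1 - 2 * s))⁻¹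

/-- `P_x(E/K, s)`: the product of the Euler factors at the good primes `v` with `Nv ≤ x`. -/
noncomputable def partialProduct {K : Type} [Field K] [NumberField K] (a b : 𝓞 K) (s : ℂ) (x : ℕ) : ℂ :=
  ∏ᶠ v ∈ {v : HeightOneSpectrum (𝓞 K) | IsGood a b v ∧ Ideal.absNorm v.asIdeal ≤ x}, factor a b s v

/-- `L(E/K, s)`: the product of the Euler factors at all good primes, for `Re s > 3/2`. -/
noncomputable def LFun {K : Type} [Field K] [NumberField K] (a b : 𝓞 K) (s : ℂ) : ℂ :=
  ∏' v : {v : HeightOneSpectrum (𝓞 K) // IsGood a b v}, factor a b s v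

/-- `K = F(θ)` is an extension of `F` of degree `deg f`, and `θ` is a root of `f + t`. -/
def Generates {F : Type} [Field F] [NumberField F] {K : Type} [Field K] [NumberField K] [Algebra F K]
    (f : Polynomial (𝓞 F)) (t : ℤ) (θ : 𝓞 K) : Prop :=
  Polynomial.aeval θ (f + Polynomial.C (t : 𝓞 F)) = 0 ∧ Module.finrank F K = f.natDegree ∧
    Algebra.adjoin F {(θ : K)} = ⊤

/-- All conjugates of all coefficients of `f` have absolute value at most `R`. -/
def HeightLE {F : Type} [Field F] [NumberField F] (R : ℝ) (f : Polynomial (𝓞 F)) : Prop :=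
  ∀ i, ∀ σ : F →+* ℂ, ‖σ (f.coeff i : F)‖ ≤ R

/-- The quotient `Q_x(s) = P_x(E/K, s) / P_x(E/F, s)` of the partial Euler products over `K` and over
`F`, for the curve `E : y² = x³ + a x + b` over `ℚ`. -/
noncomputable def quotient (F K : Type) [Field F] [NumberField F] [Field K] [NumberField K] (a b : ℤ)
    (s : ℂ) (x : ℕ) : ℂ :=
  partialProduct (a : 𝓞 K) (b : 𝓞 K) s x / partialProduct (a : 𝓞 F) (b : 𝓞 F) s x

/-- In the critical strip: `|Q_x(s) / Q_y(s) - 1| ≤ y^{-c}` for all `s` with `Re s ≥ 1 + δ`,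
`|Im s| ≤ X^c` and all `(log X)^{1/c} ≤ y ≤ x ≤ X^c`. -/
def RegularStrip (F K : Type) [Field F] [NumberField F] [Field K] [NumberField K] (δ c : ℝ) (X : ℕ)
    (a b : ℤ) : Prop :=
  ∀ s : ℂ, 1 + δ ≤ s.re → |s.im| ≤ (X : ℝ) ^ c → ∀ y x : ℕ, (Real.log X) ^ (1 / c) ≤ y → y ≤ x →
    (x : ℝ) ≤ (X : ℝ) ^ c → ‖quotient F K a b s x / quotient F K a b s y - 1‖ ≤ (y : ℝ) ^ (-c)

/-- At the edge: `|(L(E/K, s) / L(E/F, s)) / Q_y(s) - 1| ≤ η` for all `s` with
`Re s ≥ 3/2 + A / log X`, `|Im s| ≤ X^c` and all `y ≥ (log X)^{1/c}`. -/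
def RegularEdge (F K : Type) [Field F] [NumberField F] [Field K] [NumberField K] (η A c : ℝ) (X : ℕ)
    (a b : ℤ) : Prop :=
  ∀ s : ℂ, 3 / 2 + A / Real.log X ≤ s.re → |s.im| ≤ (X : ℝ) ^ c → ∀ y : ℕ,
    (Real.log X) ^ (1 / c) ≤ y →
      ‖(LFun (a : 𝓞 K) (b : 𝓞 K) s / LFun (a : 𝓞 F) (b : 𝓞 F) s) / quotient F K a b s y - 1‖ ≤ η

/-- **All rational elliptic curves over random number fields.**  Let `d` and `n` be positive integers, `B`
real and `δ > 0`.  There is `c > 0`, and for every `η > 0` there are `A` and `X₀`, such that for all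
`X ≥ X₀`, all number fields `F` of degree `d` and all monic polynomials `f` of degree `n` over `𝓞_F` whose
coefficients have conjugates of absolute value at most `exp((log X)^B)`, the following holds for all
integers `t` with `|t| ≤ X`, with at most `X^{1-c}` exceptions: for every extension `K = F(θ)` of `F` of
degree `n`, where `θ` is a root of `f + t`, and for every `E : y² = x³ + a x + b` with integers
`|a|, |b| ≤ X^c`, the quotients `Q_x(s)` of the partial Euler products of `L(E/K, s)` and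
`L(E/F, s)` satisfy `|Q_x(s) / Q_y(s) - 1| ≤ y^{-c}` for all `s` with `Re s ≥ 1 + δ`, `|Im s| ≤ X^c` and
all `(log X)^{1/c} ≤ y ≤ x ≤ X^c`, and `|(L(E/K, s) / L(E/F, s)) / Q_y(s) - 1| ≤ η` for all `s` with
`Re s ≥ 3/2 + A / log X`, `|Im s| ≤ X^c` and all `y ≥ (log X)^{1/c}`. -/
theorem result (d n : ℕ) (_ : 0 < n) (B δ : ℝ) (_ : 0 < δ) :
    ∃ c : ℝ, 0 < c ∧ ∀ η : ℝ, 0 < η → ∃ A : ℝ, ∃ X₀ : ℕ, ∀ X : ℕ, X₀ ≤ X →
      ∀ (F : Type) [Field F] [NumberField F], Module.finrank ℚ F = d →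
      ∀ f : Polynomial (𝓞 F), f.Monic → f.natDegree = n → HeightLE (Real.exp ((Real.log X) ^ B)) f →
        ({t : ℤ | |t| ≤ X ∧ ¬ ∀ (K : Type) [Field K] [NumberField K] [Algebra F K] (θ : 𝓞 K),
          Generates f t θ → ∀ a b : ℤ, |a| ≤ (X : ℝ) ^ c → |b| ≤ (X : ℝ) ^ c →
            RegularStrip F K δ c X a b ∧ RegularEdge F K η A c X a b}.ncard : ℝ) ≤
          (X : ℝ) ^ (1 - c) := by
  rename_i hn hδ
  obtain ⟨c, hc0, hc⟩ := Pool.Agent.Y693.RF.thmQ d n hn B δ hδ
  refine ⟨c, hc0, fun η hη => ?_⟩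
  obtain ⟨A, X₀, h⟩ := hc η hη
  refine ⟨A, X₀, fun X hX F _ _ hF f hf hfn hcoef => ?_⟩
  have h1 := h X hX F hF f hf hfn hcoef
  refine le_trans (le_of_eq ?_) h1
  congr 2
  ext t
  refine and_congr_right fun _ => not_congr ?_
  -- the quotients
  have hPP : ∀ (M : Type) [Field M] [NumberField M] (a b : ℤ) (s : ℂ) (x : ℕ),
      Pool.Agent.Y770.EP.PP (a : 𝓞 M) (b : 𝓞 M) (fun _ (_ : Fin 1) => 1) s x =
        partialProduct (a : 𝓞 M) (b : 𝓞 M) s x := fun M _ _ a b s x =>
    Pool.Agent.Y693.RF.PP_fc _ _ _ _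
  have hLL : ∀ (M : Type) [Field M] [NumberField M] (a b : ℤ) (s : ℂ),
      Pool.Agent.Y770.EP.LL (a : 𝓞 M) (b : 𝓞 M) (fun _ (_ : Fin 1) => 1) s =
        LFun (a : 𝓞 M) (b : 𝓞 M) s := fun M _ _ a b s => Pool.Agent.Y693.RF.LL_fc _ _ _
  have hQQ : ∀ (K : Type) [Field K] [NumberField K] [Algebra F K] (a b : ℤ) (s : ℂ) (x : ℕ),
      Pool.Agent.Y693.RF.QQ (a : 𝓞 F) (b : 𝓞 F) (fun _ (_ : Fin 1) => 1) K s x =
        quotient F K a b s x := by
    intro K _ _ _ a b s x
    unfold Pool.Agent.Y693.RF.QQ quotient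
    rw [Pool.Agent.Y693.RF.bc_one, map_intCast, map_intCast, hPP, hPP]
  have hA1 : ∀ (K : Type) [Field K] [NumberField K] [Algebra F K] (a b : ℤ),
      Pool.Agent.Y693.RF.A1 δ c X (a : 𝓞 F) (b : 𝓞 F) (fun _ (_ : Fin 1) => 1) K ↔
        RegularStrip F K δ c X a b := by
    intro K _ _ _ a b
    unfold Pool.Agent.Y693.RF.A1 RegularStrip
    simp only [hQQ]
  have hA2 : ∀ (K : Type) [Field K] [NumberField K] [Algebra F K] (a b : ℤ),
      Pool.Agent.Y693.RF.A2 η A c X (a : 𝓞 F) (b : 𝓞 F) (fun _ (_ : Fin 1) => 1) K ↔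
        RegularEdge F K η A c X a b := by
    intro K _ _ _ a b
    unfold Pool.Agent.Y693.RF.A2 RegularEdge
    rw [Pool.Agent.Y693.RF.bc_one, map_intCast, map_intCast]
    simp only [hQQ, hLL]
  constructor
  · intro h2 K _ _ _ θ hθ a b ha hb
    rw [hA1, hA2]
    exact h2 K θ ⟨hθ.root, by rw [hθ.deg, Polynomial.natDegree_add_C], hθ.top⟩ a b ha hb
  · intro h2 K _ _ _ θ hθ a b ha hb
    rw [← hA1, ← hA2]
    exact h2 K θ ⟨hθ.1, by rw [hθ.2.1, Polynomial.natDegree_add_C], hθ.2.2⟩ a b ha hb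

end Pool.Agent.Results.MP_bf9450_nt.RationalCurvesRandomFields
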